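import Mathlib

set_option autoImplicit false

/-!
# Biased Maker-Breaker games on finite boards: one round at a time
-/

namespace Pool.Agent.Y418.GR

open Finset

/-- Maker (to move, `a` points per turn) can force that at the end of the play his set has `goal`;
Breaker claims `b` points per turn. -/
inductive Forces {E : Type*} [DecidableEq E] (a b : ℕ) (Bd : Finset E)
    (goal : Finset E → Prop) : Finset E → Finset E → Prop
  | done {M B : Finset E} (h0 : Bd \ (M ∪ B) = ∅) (hg : goal M) : Forces a b Bd goal M B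
  | move {M B : Finset E} (h0 : Bd \ (M ∪ B) ≠ ∅) (Q : Finset E) (hQ : Q ⊆ Bd \ (M ∪ B))
      (hc : Q.card = min a (Bd \ (M ∪ B)).card)
      (h : ∀ R ⊆ (Bd \ (M ∪ B)) \ Q, R.card = min b ((Bd \ (M ∪ B)) \ Q).card →
        Forces a b Bd goal (M ∪ Q) (B ∪ R)) : Forces a b Bd goal M B

variable {E : Type*} [DecidableEq E] {a b : ℕ} {Bd : Finset E} {goal : Finset E → Prop}

lemma card_lt_of_move {M B Q R : Finset E} (h0 : Bd \ (M ∪ B) ≠ ∅)
    (hQ : Q ⊆ Bd \ (M ∪ B)) (ha : 1 ≤ a) (hc : Q.card = min a (Bd \ (M ∪ B)).card) :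
    (Bd \ (M ∪ Q ∪ (B ∪ R))).card < (Bd \ (M ∪ B)).card := by
  have hpos : 0 < (Bd \ (M ∪ B)).card := Finset.card_pos.mpr (Finset.nonempty_iff_ne_empty.mpr h0)
  have hQne : Q.Nonempty := by
    rw [← Finset.card_pos, hc]
    exact lt_min (by omega) hpos
  obtain ⟨x, hx⟩ := hQne
  apply Finset.card_lt_card
  refine ⟨?_, ?_⟩
  · intro y hy
    simp only [mem_sdiff, mem_union, not_or] at hy ⊢
    exact ⟨hy.1, hy.2.1.1, hy.2.2.1⟩
  · intro hcon
    have := hcon (hQ hx)
    simp [hx] at this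

lemma forces_of_goal' (ha : 1 ≤ a) (hmono : ∀ M M' : Finset E, M ⊆ M' → goal M → goal M') :
    ∀ (k : ℕ) (M B : Finset E), (Bd \ (M ∪ B)).card = k → goal M → Forces a b Bd goal M B := by
  intro k
  induction k using Nat.strong_induction_on with
  | _ k ih =>
    intro M B hk hg
    by_cases h0 : Bd \ (M ∪ B) = ∅
    · exact Forces.done h0 hg
    · obtain ⟨Q, hQ, hQc⟩ := Finset.exists_subset_card_eq
        (min_le_right a (Bd \ (M ∪ B)).card)
      refine Forces.move h0 Q hQ hQc ?_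
      intro R hR hcard
      refine ih _ ?_ _ _ rfl (hmono _ _ Finset.subset_union_left hg)
      rw [← hk]
      exact card_lt_of_move h0 hQ ha hQc

lemma forces_of_goal (ha : 1 ≤ a) (hmono : ∀ M M' : Finset E, M ⊆ M' → goal M → goal M')
    {M B : Finset E} (hg : goal M) : Forces a b Bd goal M B :=
  forces_of_goal' ha hmono _ M B rfl hg

/-- One round: Maker claims the points of `Q₀` (at most `a` of them, none claimed by Breaker). -/
theorem round {M B : Finset E} (hd : Disjoint M B) (Q₀ : Finset E) (hQ0 : Q₀.card ≤ a)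
    (hQB : Q₀ ⊆ Bd) (hQd : Disjoint Q₀ B)
    (h : ∀ M' B' : Finset E, M ⊆ M' → Q₀ ⊆ M' → B ⊆ B' → (B' \ B).card ≤ b → Disjoint M' B' →
      Forces a b Bd goal M' B') : Forces a b Bd goal M B := by
  by_cases h0 : Bd \ (M ∪ B) = ∅
  · refine h M B (le_refl _) ?_ (le_refl _) (by simp) hd
    intro x hx
    by_contra hc
    have : x ∈ Bd \ (M ∪ B) := by
      rw [mem_sdiff, mem_union, not_or]
      exact ⟨hQB hx, hc, Finset.disjoint_left.mp hQd hx⟩
    rw [h0] at this
    exact Finset.notMem_empty x this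
  · have h1 : Q₀ \ M ⊆ Bd \ (M ∪ B) := by
      intro x hx
      rw [mem_sdiff] at hx
      rw [mem_sdiff, mem_union, not_or]
      exact ⟨hQB hx.1, hx.2, Finset.disjoint_left.mp hQd hx.1⟩
    have h2 : (Q₀ \ M).card ≤ min a (Bd \ (M ∪ B)).card :=
      le_min ((Finset.card_le_card Finset.sdiff_subset).trans hQ0) (Finset.card_le_card h1)
    obtain ⟨Q, hQ1, hQ2, hQ3⟩ := Finset.exists_subsuperset_card_eq h1 h2 (min_le_right _ _)
    refine Forces.move h0 Q hQ2 hQ3 ?_
    intro R hR hRc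
    refine h (M ∪ Q) (B ∪ R) Finset.subset_union_left ?_ Finset.subset_union_left ?_ ?_
    · intro x hx
      by_cases hxM : x ∈ M
      · exact Finset.mem_union_left _ hxM
      · exact Finset.mem_union_right _ (hQ1 (Finset.mem_sdiff.mpr ⟨hx, hxM⟩))
    · have h3 : (B ∪ R) \ B ⊆ R := by
        intro x hx
        rw [mem_sdiff, mem_union] at hx
        tauto
      calc ((B ∪ R) \ B).card ≤ R.card := Finset.card_le_card h3
        _ ≤ b := by rw [hRc]; exact min_le_left _ _
    · rw [Finset.disjoint_left]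
      intro x hx hx'
      rw [mem_union] at hx hx'
      rcases hx with hx | hx
      · rcases hx' with hx' | hx'
        · exact Finset.disjoint_left.mp hd hx hx'
        · have := hR hx'
          simp [hx] at this
      · rcases hx' with hx' | hx'
        · have := hQ2 hx
          simp [hx'] at this
        · have := hR hx'
          simp [hx] at this

/-- From `Forces` to strategies given as functions of the position. -/
theorem exists_strategy (ha : 1 ≤ a) (h : Forces a b Bd goal ∅ ∅) :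
    ∃ σ : Finset E → Finset E → Finset E,
      (∀ M B, σ M B ⊆ Bd \ (M ∪ B) ∧ (σ M B).card = min a (Bd \ (M ∪ B)).card) ∧
      ∀ pM pB R : ℕ → Finset E, pM 0 = ∅ → pB 0 = ∅ →
        (∀ i, pM (i + 1) = pM i ∪ σ (pM i) (pB i)) → (∀ i, pB (i + 1) = pB i ∪ R i) →
        (∀ i, R i ⊆ (Bd \ (pM i ∪ pB i)) \ σ (pM i) (pB i) ∧
          (R i).card = min b ((Bd \ (pM i ∪ pB i)) \ σ (pM i) (pB i)).card) →
        ∃ i, Bd \ (pM i ∪ pB i) = ∅ ∧ goal (pM i) := by
  classical
  obtain ⟨Good, hGood⟩ : ∃ Good : Finset E → Finset E → Finset E → Prop, ∀ M B Q, Good M B Q ↔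
    (Q ⊆ Bd \ (M ∪ B) ∧ Q.card = min a (Bd \ (M ∪ B)).card ∧
      ∀ R ⊆ (Bd \ (M ∪ B)) \ Q, R.card = min b ((Bd \ (M ∪ B)) \ Q).card →
        Forces a b Bd goal (M ∪ Q) (B ∪ R)) := ⟨_, fun _ _ _ => Iff.rfl⟩
  have hex : ∀ M B, ∃ Q : Finset E, (Q ⊆ Bd \ (M ∪ B) ∧ Q.card = min a (Bd \ (M ∪ B)).card) ∧
      ((∃ Q', Good M B Q') → Good M B Q) := by
    intro M B
    by_cases hg : ∃ Q', Good M B Q'
    · obtain ⟨Q', hQ'⟩ := hg
      have h1 := (hGood M B Q').mp hQ'
      exact ⟨Q', ⟨h1.1, h1.2.1⟩, fun _ => hQ'⟩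
    · obtain ⟨Q', hQ', hc⟩ := exists_subset_card_eq (s := Bd \ (M ∪ B))
        (n := min a (Bd \ (M ∪ B)).card) (min_le_right _ _)
      exact ⟨Q', ⟨hQ', hc⟩, fun h => absurd h hg⟩
  choose σ hσ using hex
  refine ⟨σ, fun M B => (hσ M B).1, ?_⟩
  intro pM pB R h0 h0' hM hB hR
  have hend : ∃ i, Bd \ (pM i ∪ pB i) = ∅ := by
    by_contra hcon
    push Not at hcon
    have hle : ∀ i, (Bd \ (pM i ∪ pB i)).card + i ≤ (Bd \ (pM 0 ∪ pB 0)).card := by
      intro i
      induction i with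
      | zero => simp
      | succ i ih =>
        have h1 := (hσ (pM i) (pB i)).1
        have h2 := card_lt_of_move (R := R i) (hcon i).ne_empty h1.1 ha h1.2
        rw [← hM, ← hB] at h2
        omega
    have h1 := hle ((Bd \ (pM 0 ∪ pB 0)).card + 1)
    omega
  have hinv : ∀ i, (∀ j < i, Bd \ (pM j ∪ pB j) ≠ ∅) → Forces a b Bd goal (pM i) (pB i) := by
    intro i
    induction i with
    | zero => intro _; rw [h0, h0']; exact h
    | succ i ih =>
      intro hj
      have h1 := ih (fun j hji => hj j (by omega))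
      have h2 := hj i (by omega)
      rw [hM, hB]
      have h3 : ∃ Q', Good (pM i) (pB i) Q' := by
        cases h1 with
        | done h0 hg => exact absurd h0 h2
        | move h0 Q hQ hc h => exact ⟨Q, (hGood _ _ _).mpr ⟨hQ, hc, h⟩⟩
      have h4 := (hGood _ _ _).mp ((hσ (pM i) (pB i)).2 h3)
      exact h4.2.2 (R i) (hR i).1 (hR i).2
  refine ⟨Nat.find hend, Nat.find_spec hend, ?_⟩
  have h1 := hinv (Nat.find hend) (fun j hj => Nat.find_min hend hj)
  have h2 := Nat.find_spec hend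
  cases h1 with
  | done h0 hg => exact hg
  | move h0 Q hQ hc h => exact absurd h2 h0

end Pool.Agent.Y418.GR
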