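import Mathlib
import Pool.Agent.Y418.GR.Game

set_option autoImplicit false
set_option linter.unusedVariables false

/-!
# The greedy strategy of Maker with whole stars
-/

namespace Pool.Agent.Y418.GR

open Finset

section graph
variable {V : Type*} [DecidableEq V]

/-- number of neighbours of `v` in `C` -/
def dg (B : Finset (Sym2 V)) (C : Finset V) (v : V) : ℕ := (C.filter (fun u => s(v, u) ∈ B)).card

lemma dg_mono {B B' : Finset (Sym2 V)} {C C' : Finset V} (hB : B ⊆ B') (hC : C ⊆ C') (v : V) :
    dg B C v ≤ dg B' C' v := by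
  unfold dg
  apply Finset.card_le_card
  intro u hu
  rw [mem_filter] at hu ⊢
  exact ⟨hC hu.1, hB hu.2⟩

lemma dg_union_le {B N B' : Finset (Sym2 V)} (h : B' ⊆ B ∪ N) (C : Finset V) (v : V) :
    dg B' C v ≤ dg B C v + dg N C v := by
  unfold dg
  refine le_trans (Finset.card_le_card ?_) (Finset.card_union_le _ _)
  intro u hu
  rw [mem_filter] at hu
  rw [mem_union, mem_filter, mem_filter]
  have := h hu.2
  rw [mem_union] at this
  tauto

lemma sum_dg_le (B : Finset (Sym2 V)) (C : Finset V) : ∑ v ∈ C, dg B C v ≤ 2 * B.card := by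
  have h1 : ∑ v ∈ C, dg B C v = ((C ×ˢ C).filter (fun p => s(p.1, p.2) ∈ B)).card := by
    unfold dg
    rw [Finset.card_filter, Finset.sum_product]
    apply Finset.sum_congr rfl
    intro v _
    rw [Finset.card_filter]
  rw [h1]
  have h2 := Finset.card_le_mul_card_image (f := fun p : V × V => s(p.1, p.2))
    ((C ×ˢ C).filter (fun p => s(p.1, p.2) ∈ B)) 2 (by
      intro e _
      induction e using Sym2.ind with
      | _ x y =>
        refine le_trans (Finset.card_le_card (t := {(x, y), (y, x)}) ?_) Finset.card_le_two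
        intro p hp
        rw [mem_filter] at hp
        have := hp.2
        rw [Sym2.eq_iff] at this
        rw [mem_insert, mem_singleton]
        rcases this with ⟨h1, h2⟩ | ⟨h1, h2⟩
        · left; exact Prod.ext h1 h2
        · right; exact Prod.ext h1 h2)
  refine h2.trans (Nat.mul_le_mul_left _ (Finset.card_le_card ?_))
  intro e he
  rw [mem_image] at he
  obtain ⟨p, hp, rfl⟩ := he
  exact (mem_filter.mp hp).2

lemma few_high (B : Finset (Sym2 V)) (C : Finset V) (D : ℕ) :
    (C.filter (fun v => D < dg B C v)).card * (D + 1) ≤ 2 * B.card := by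
  refine le_trans ?_ (sum_dg_le B C)
  calc (C.filter (fun v => D < dg B C v)).card * (D + 1)
      = ∑ v ∈ C.filter (fun v => D < dg B C v), (D + 1) := by
        rw [Finset.sum_const, smul_eq_mul]
    _ ≤ ∑ v ∈ C.filter (fun v => D < dg B C v), dg B C v := by
        apply Finset.sum_le_sum
        intro v hv
        exact (mem_filter.mp hv).2
    _ ≤ ∑ v ∈ C, dg B C v := Finset.sum_le_sum_of_subset (Finset.filter_subset _ _)

lemma exists_indep (B : Finset (Sym2 V)) (Δ : ℕ) : ∀ (k : ℕ) (R : Finset V),
    (∀ v ∈ R, dg B R v ≤ Δ) → k * (Δ + 1) ≤ R.card →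
    ∃ W ⊆ R, W.card = k ∧ ∀ u ∈ W, ∀ v ∈ W, u ≠ v → s(u, v) ∉ B := by
  intro k
  induction k with
  | zero => intro R _ _; exact ⟨∅, Finset.empty_subset _, rfl, by simp⟩
  | succ k ih =>
    intro R hR hk
    have hne : R.Nonempty := by
      rw [← Finset.card_pos]
      have : 0 < (k + 1) * (Δ + 1) := by positivity
      omega
    obtain ⟨v, hv⟩ := hne
    have hsub : (R.erase v).filter (fun u => s(v, u) ∉ B) ⊆ R :=
      (Finset.filter_subset _ _).trans (Finset.erase_subset _ _)
    obtain ⟨W, hW1, hW2, hW3⟩ := ih ((R.erase v).filter (fun u => s(v, u) ∉ B))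
      (fun u hu => (dg_mono (le_refl _) hsub u).trans (hR u (hsub hu))) (by
        have h1 := Finset.card_filter_add_card_filter_not (s := R.erase v) (fun u => s(v, u) ∈ B)
        have h2 : ((R.erase v).filter (fun u => s(v, u) ∈ B)).card ≤ Δ := by
          refine le_trans (Finset.card_le_card ?_) (hR v hv)
          exact Finset.filter_subset_filter _ (Finset.erase_subset _ _)
        have h3 := Finset.card_erase_of_mem hv
        have h4 : (k + 1) * (Δ + 1) = k * (Δ + 1) + (Δ + 1) := by ring
        omega)
    have hvW : v ∉ W := by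
      intro h
      have := hW1 h
      simp at this
    refine ⟨insert v W, ?_, ?_, ?_⟩
    · exact Finset.insert_subset hv (hW1.trans hsub)
    · rw [Finset.card_insert_of_notMem hvW, hW2]
    · intro x hx y hy hxy
      rw [mem_insert] at hx hy
      rcases hx with rfl | hx
      · rcases hy with rfl | hy
        · exact absurd rfl hxy
        · have := hW1 hy
          rw [mem_filter] at this
          exact this.2
      · rcases hy with rfl | hy
        · have := hW1 hx
          rw [mem_filter] at this
          rw [Sym2.eq_swap]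
          exact this.2
        · exact hW3 x hx y hy hxy

/-- vertices of `U` joined to `T` by an edge of `N` -/
lemma card_hit_le (N : Finset (Sym2 V)) (U T : Finset V) (hd : Disjoint U T) :
    (U.filter (fun u => ∃ t ∈ T, s(u, t) ∈ N)).card ≤ N.card := by
  apply Finset.card_le_card_of_forall_subsingleton
    (fun (u : V) (e : Sym2 V) => ∃ t ∈ T, s(u, t) = e)
  · intro u hu
    rw [mem_filter] at hu
    obtain ⟨_, t, ht, h⟩ := hu
    exact ⟨s(u, t), h, t, ht, rfl⟩
  · intro e _ u hu u' hu'
    simp only [Set.mem_ofPred_eq, mem_filter] at hu hu'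
    obtain ⟨⟨hu, _⟩, t, ht, h⟩ := hu
    obtain ⟨⟨hu', _⟩, t', ht', h'⟩ := hu'
    rw [← h', Sym2.eq_iff] at h
    rcases h with ⟨h, _⟩ | ⟨h, _⟩
    · exact h
    · exact absurd (h ▸ ht') (Finset.disjoint_left.mp hd hu)

end graph

section game
variable {V : Type*} [DecidableEq V] [Fintype V] {a b : ℕ}

/-- the edges of the complete graph -/
def edges (V : Type*) [DecidableEq V] [Fintype V] : Finset (Sym2 V) :=
  univ.filter (fun z => ¬ z.IsDiag)

lemma mem_edges {u v : V} (h : u ≠ v) : s(u, v) ∈ edges V := by
  unfold edges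
  rw [mem_filter]
  exact ⟨mem_univ _, by simpa using h⟩

variable {goal : Finset (Sym2 V) → Prop}

/-- Playing whole stars into `T`. -/
theorem phase (T U₀ : Finset V) (hT : T.card ≤ a) (hTU : Disjoint U₀ T)
    (M₀ B₀ : Finset (Sym2 V))
    (hcont : ∀ (M B : Finset (Sym2 V)) (R : Finset V), M₀ ⊆ M → B₀ ⊆ B → Disjoint M B →
      R ⊆ U₀ → U₀.card ≤ (1 + b) * R.card → (B \ B₀).card ≤ b * R.card →
      (∀ u ∈ R, ∀ t ∈ T, s(u, t) ∈ M) → (∀ u ∈ R, ∀ t ∈ T, s(u, t) ∉ B₀) →
      Forces a b (edges V) goal M B) :
    ∀ (k : ℕ) (M B : Finset (Sym2 V)) (U R : Finset V), U.card = k → M₀ ⊆ M → B₀ ⊆ B →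
      Disjoint M B → U ⊆ U₀ → R ⊆ U₀ → Disjoint U R → U₀.card ≤ U.card + (1 + b) * R.card →
      (B \ B₀).card ≤ b * R.card → (∀ u ∈ U, ∀ t ∈ T, s(u, t) ∉ B) →
      (∀ u ∈ R, ∀ t ∈ T, s(u, t) ∈ M) → Forces a b (edges V) goal M B := by
  intro k
  induction k using Nat.strong_induction_on with
  | _ k ih =>
    intro M B U R hk hM hB hd hU hR hUR hc hcB hUB hRM
    by_cases hne : U.Nonempty
    · obtain ⟨v, hv⟩ := hne
      have hvT : ∀ t ∈ T, v ≠ t := by
        intro t ht h
        exact Finset.disjoint_left.mp hTU (hU hv) (h ▸ ht)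
      refine round hd (T.image (fun t => s(v, t))) (Finset.card_image_le.trans hT) ?_ ?_ ?_
      · intro e he
        rw [mem_image] at he
        obtain ⟨t, ht, rfl⟩ := he
        exact mem_edges (hvT t ht)
      · rw [Finset.disjoint_left]
        intro e he
        rw [mem_image] at he
        obtain ⟨t, ht, rfl⟩ := he
        exact hUB v hv t ht
      · intro M' B' hMM hQ hBB hcard hd'
        have hhit := card_hit_le (B' \ B) (U.erase v) T
          (Finset.disjoint_of_subset_left ((Finset.erase_subset _ _).trans hU) hTU)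
        have hsplit := Finset.card_filter_add_card_filter_not (s := U.erase v)
          (fun u => ∃ t ∈ T, s(u, t) ∈ B' \ B)
        have herase := Finset.card_erase_of_mem hv
        have hvR : v ∉ R := Finset.disjoint_left.mp hUR hv
        have hRc := Finset.card_insert_of_notMem hvR
        have hpos : 0 < U.card := Finset.card_pos.mpr ⟨v, hv⟩
        refine ih (((U.erase v).filter (fun u => ¬ ∃ t ∈ T, s(u, t) ∈ B' \ B)).card) ?_ M' B'
          ((U.erase v).filter (fun u => ¬ ∃ t ∈ T, s(u, t) ∈ B' \ B)) (insert v R) rfl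
          (hM.trans hMM) (hB.trans hBB) hd' ?_ ?_ ?_ ?_ ?_ ?_ ?_
        · omega
        · exact (Finset.filter_subset _ _).trans ((Finset.erase_subset _ _).trans hU)
        · exact Finset.insert_subset (hU hv) hR
        · rw [Finset.disjoint_left]
          intro u hu hu'
          rw [mem_filter, mem_erase] at hu
          rw [mem_insert] at hu'
          rcases hu' with hu' | hu'
          · exact hu.1.1 hu'
          · exact Finset.disjoint_left.mp hUR hu.1.2 hu'
        · rw [hRc]
          have : (1 + b) * (R.card + 1) = (1 + b) * R.card + (1 + b) := by ring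
          omega
        · rw [hRc]
          have h1 : (B' \ B₀).card ≤ (B' \ B).card + (B \ B₀).card := by
            refine le_trans (Finset.card_le_card ?_) (Finset.card_union_le _ _)
            intro e he
            rw [mem_sdiff] at he
            rw [mem_union, mem_sdiff, mem_sdiff]
            tauto
          have : b * (R.card + 1) = b * R.card + b := by ring
          omega
        · intro u hu t ht h
          rw [mem_filter, mem_erase] at hu
          apply hu.2
          exact ⟨t, ht, mem_sdiff.mpr ⟨h, hUB u hu.1.2 t ht⟩⟩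
        · intro u hu t ht
          rw [mem_insert] at hu
          rcases hu with rfl | hu
          · exact hQ (mem_image_of_mem _ ht)
          · exact hMM (hRM u hu t ht)
    · rw [Finset.not_nonempty_iff_eq_empty] at hne
      subst hne
      refine hcont M B R hM hB hd hR (by simpa using hc) hcB hRM ?_
      intro u hu t ht h
      exact Finset.disjoint_left.mp hd (hRM u hu t ht) (hB h)

/-- number of vertices which suffice for `build` -/
def wk (b : ℕ) : ℕ → ℕ
  | 0 => 0
  | k + 1 => 1 + (1 + b) * (2 * (wk b k * (4 * b + 1)))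

/-- bound for the number of edges which Breaker claims in `build` -/
def tk (b : ℕ) : ℕ → ℕ
  | 0 => 0
  | k + 1 => b * wk b (k + 1) + tk b k

/-- Building a small clique inside a set without edges of Breaker. -/
theorem build (ha : 1 ≤ a) : ∀ (k : ℕ) (M B : Finset (Sym2 V)) (T₀ W : Finset V),
    Disjoint M B → Disjoint T₀ W → W.card = wk b k →
    (∀ u ∈ W, ∀ v ∈ W, u ≠ v → s(u, v) ∉ B) →
    (∀ u ∈ T₀, ∀ v ∈ T₀, u ≠ v → s(u, v) ∈ M) → (∀ u ∈ T₀, ∀ w ∈ W, s(u, w) ∈ M) →
    (∀ (M' B' : Finset (Sym2 V)) (T : Finset V), M ⊆ M' → B ⊆ B' → Disjoint M' B' →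
      (B' \ B).card ≤ tk b k → T₀ ⊆ T → T ⊆ T₀ ∪ W → T.card = T₀.card + k →
      (∀ u ∈ T, ∀ v ∈ T, u ≠ v → s(u, v) ∈ M') → Forces a b (edges V) goal M' B') →
    Forces a b (edges V) goal M B := by
  intro k
  induction k with
  | zero =>
    intro M B T₀ W hd hTW hW hWB hT hTWM hcont
    exact hcont M B T₀ (le_refl _) (le_refl _) hd (by simp) (le_refl _)
      Finset.subset_union_left rfl hT
  | succ k ih =>
    intro M B T₀ W hd hTW hW hWB hT hTWM hcont
    have hne : W.Nonempty := by
      rw [← Finset.card_pos, hW]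
      unfold wk
      omega
    obtain ⟨t, ht⟩ := hne
    have htT : t ∉ T₀ := Finset.disjoint_right.mp hTW ht
    refine phase {t} (W.erase t) (by simpa using ha) (by simp) M B ?_ (W.erase t).card M B
      (W.erase t) ∅ rfl (le_refl _) (le_refl _) hd (le_refl _) (Finset.empty_subset _) (by simp)
      (by simp) (by simp) ?_ (by simp)
    · intro M' B' R hM hB hd' hR hc hcB hRM _
      have herase := Finset.card_erase_of_mem ht
      have hRW : R ⊆ W := hR.trans (Finset.erase_subset _ _)
      set N := B' \ B with hN
      -- vertices of small degree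
      set R₁ := R.filter (fun v => ¬ 4 * b < dg N R v) with hR₁
      have h1 := few_high N R (4 * b)
      have h2 : (R.filter (fun v => 4 * b < dg N R v)).card + R₁.card = R.card :=
        Finset.card_filter_add_card_filter_not (s := R) (fun v => 4 * b < dg N R v)
      have hR1 : wk b k * (4 * b + 1) ≤ R₁.card := by
        have h3 : W.card = 1 + (1 + b) * (2 * (wk b k * (4 * b + 1))) := hW
        have h4 : 2 * (wk b k * (4 * b + 1)) ≤ R.card := by
          have h5 : (1 + b) * (2 * (wk b k * (4 * b + 1))) ≤ (1 + b) * R.card := by omega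
          exact Nat.le_of_mul_le_mul_left h5 (by omega)
        have h6 : (R.filter (fun v => 4 * b < dg N R v)).card * 2 ≤ R.card := by
          rcases Nat.eq_zero_or_pos b with hb | hb
          · subst hb
            simp only [zero_mul, Nat.le_zero] at hcB
            simp only [hcB] at h1
            omega
          · have h7 : (R.filter (fun v => 4 * b < dg N R v)).card * (4 * b)
                ≤ 2 * (b * R.card) := by
              refine le_trans (Nat.mul_le_mul_left _ (by omega)) (h1.trans ?_)
              exact Nat.mul_le_mul_left _ hcB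
            have h8 : (2 * b) * ((R.filter (fun v => 4 * b < dg N R v)).card * 2)
                ≤ (2 * b) * R.card := by
              calc (2 * b) * ((R.filter (fun v => 4 * b < dg N R v)).card * 2)
                  = (R.filter (fun v => 4 * b < dg N R v)).card * (4 * b) := by ring
                _ ≤ 2 * (b * R.card) := h7
                _ = (2 * b) * R.card := by ring
            exact Nat.le_of_mul_le_mul_left h8 (by omega)
        omega
      obtain ⟨W', hW'1, hW'2, hW'3⟩ := exists_indep N (4 * b) (wk b k) R₁ (by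
        intro v hv
        rw [hR₁, mem_filter] at hv
        exact (dg_mono (le_refl _) (Finset.filter_subset _ _) v).trans (not_lt.mp hv.2)) hR1
      have hW'R : W' ⊆ R := hW'1.trans (Finset.filter_subset _ _)
      refine ih M' B' (insert t T₀) W' hd' ?_ hW'2 ?_ ?_ ?_ ?_
      · rw [Finset.disjoint_left]
        intro u hu hu'
        rw [mem_insert] at hu
        rcases hu with rfl | hu
        · have := hR (hW'R hu')
          simp at this
        · exact Finset.disjoint_left.mp hTW hu (hRW (hW'R hu'))
      · intro u hu v hv huv h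
        refine hW'3 u hu v hv huv (mem_sdiff.mpr ⟨h, ?_⟩)
        exact hWB u (hRW (hW'R hu)) v (hRW (hW'R hv)) huv
      · intro u hu v hv huv
        rw [mem_insert] at hu hv
        rcases hu with rfl | hu
        · rcases hv with rfl | hv
          · exact absurd rfl huv
          · rw [Sym2.eq_swap]
            exact hM (hTWM v hv _ ht)
        · rcases hv with rfl | hv
          · exact hM (hTWM u hu _ ht)
          · exact hM (hT u hu v hv huv)
      · intro u hu w hw
        rw [mem_insert] at hu
        rcases hu with rfl | hu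
        · rw [Sym2.eq_swap]
          exact hRM w (hW'R hw) _ (mem_singleton_self _)
        · exact hM (hTWM u hu w (hRW (hW'R hw)))
      · intro M'' B'' T hMM hBB hd'' hcard hTT hTW' hTc hTM
        refine hcont M'' B'' T (hM.trans hMM) (hB.trans hBB) hd'' ?_
          ((Finset.subset_insert _ _).trans hTT) ?_ ?_ hTM
        · have h3 : (B'' \ B).card ≤ (B'' \ B').card + N.card := by
            refine le_trans (Finset.card_le_card ?_) (Finset.card_union_le _ _)
            intro e he
            rw [mem_sdiff] at he
            rw [mem_union, mem_sdiff, hN, mem_sdiff]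
            tauto
          have h4 : b * R.card ≤ b * wk b (k + 1) := by
            apply Nat.mul_le_mul_left
            rw [← hW]
            exact Finset.card_le_card hRW
          have h5 : tk b (k + 1) = b * wk b (k + 1) + tk b k := rfl
          omega
        · intro u hu
          have := hTW' hu
          rw [mem_union, mem_insert] at this
          rw [mem_union]
          rcases this with (rfl | h) | h
          · exact Or.inr ht
          · exact Or.inl h
          · exact Or.inr (hRW (hW'R h))
        · rw [hTc, Finset.card_insert_of_notMem htT]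
          ring
    · intro u hu x hx
      rw [mem_singleton] at hx
      subst hx
      rw [mem_erase] at hu
      exact hWB u hu.2 _ ht hu.1

/-- One stage: `a` more vertices. -/
theorem stage (ha : 1 ≤ a) (M B : Finset (Sym2 V)) (S C : Finset V) (Δ D : ℕ)
    (hd : Disjoint M B) (hSC : Disjoint S C)
    (hS : ∀ u ∈ S, ∀ v ∈ S, u ≠ v → s(u, v) ∈ M) (hSCM : ∀ u ∈ S, ∀ v ∈ C, s(u, v) ∈ M)
    (hdeg : ∀ v ∈ C, dg B C v ≤ Δ) (hC : wk b a * (Δ + 1) ≤ C.card)
    (hcont : ∀ (M' B' : Finset (Sym2 V)) (S' C' : Finset V) (r : ℕ), Disjoint M' B' →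
      Disjoint S' C' → S'.card = S.card + a → (∀ u ∈ S', ∀ v ∈ S', u ≠ v → s(u, v) ∈ M') →
      (∀ u ∈ S', ∀ v ∈ C', s(u, v) ∈ M') → (∀ v ∈ C', dg B' C' v ≤ Δ + D) →
      C.card ≤ a + a * Δ + tk b a + (1 + b) * r →
      r * (D + 1) ≤ C'.card * (D + 1) + 2 * (tk b a + b * r) →
      Forces a b (edges V) goal M' B') :
    Forces a b (edges V) goal M B := by
  obtain ⟨W, hW1, hW2, hW3⟩ := exists_indep B Δ (wk b a) C hdeg hC
  refine build ha a M B ∅ W hd (by simp) hW2 hW3 (by simp) (by simp) ?_
  intro M₁ B₁ T hM1 hB1 hd1 hB1c _ hTW hTc hTM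
  rw [Finset.empty_union] at hTW
  rw [Finset.card_empty, zero_add] at hTc
  have hTC : T ⊆ C := hTW.trans hW1
  set U₀ := (C \ T).filter (fun v => ¬ ∃ t ∈ T, s(v, t) ∈ B₁) with hU₀
  have hU₀C : U₀ ⊆ C := (Finset.filter_subset _ _).trans Finset.sdiff_subset
  have hU₀T : Disjoint U₀ T := by
    rw [Finset.disjoint_left]
    intro v hv
    rw [hU₀, mem_filter, mem_sdiff] at hv
    exact hv.1.2
  have hsize : C.card ≤ a + a * Δ + tk b a + U₀.card := by
    have h1 : ((C \ T).filter (fun v => ∃ t ∈ T, s(v, t) ∈ B₁)).card + U₀.card = (C \ T).card :=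
      Finset.card_filter_add_card_filter_not (s := C \ T) (fun v => ∃ t ∈ T, s(v, t) ∈ B₁)
    have h2 := Finset.card_sdiff_of_subset hTC
    have h3 : T.card ≤ C.card := Finset.card_le_card hTC
    have h4 : ((C \ T).filter (fun v => ∃ t ∈ T, s(v, t) ∈ B₁)).card ≤ a * Δ + tk b a := by
      have h5 : (C \ T).filter (fun v => ∃ t ∈ T, s(v, t) ∈ B₁)
          ⊆ T.biUnion (fun t => C.filter (fun u => s(t, u) ∈ B)) ∪
            (C \ T).filter (fun v => ∃ t ∈ T, s(v, t) ∈ B₁ \ B) := by
        intro v hv
        rw [mem_filter] at hv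
        obtain ⟨hvC, t, ht, h⟩ := hv
        rw [mem_union]
        by_cases hB : s(v, t) ∈ B
        · left
          rw [mem_biUnion]
          refine ⟨t, ht, ?_⟩
          rw [mem_filter]
          exact ⟨(mem_sdiff.mp hvC).1, by rw [Sym2.eq_swap]; exact hB⟩
        · right
          rw [mem_filter]
          exact ⟨hvC, t, ht, mem_sdiff.mpr ⟨h, hB⟩⟩
      refine (Finset.card_le_card h5).trans ((Finset.card_union_le _ _).trans ?_)
      apply Nat.add_le_add
      · refine Finset.card_biUnion_le.trans ?_
        calc ∑ t ∈ T, (C.filter (fun u => s(t, u) ∈ B)).card ≤ ∑ t ∈ T, Δ :=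
              Finset.sum_le_sum (fun t ht => hdeg t (hTC ht))
          _ = a * Δ := by rw [Finset.sum_const, smul_eq_mul, hTc]
      · exact (card_hit_le (B₁ \ B) (C \ T) T Finset.sdiff_disjoint).trans hB1c
    omega
  refine phase T U₀ hTc.le hU₀T M₁ B₁ ?_ U₀.card M₁ B₁ U₀ ∅ rfl (le_refl _) (le_refl _) hd1
    (le_refl _) (Finset.empty_subset _) (by simp) (by simp) (by simp) ?_ (by simp)
  · intro M₂ B₂ R hM2 hB2 hd2 hR hRc hB2c hRM _
    have hRC : R ⊆ C := hR.trans hU₀C
    have hRT : Disjoint R T := Finset.disjoint_of_subset_left hR hU₀T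
    set N := B₂ \ B with hN
    have hNc : N.card ≤ tk b a + b * R.card := by
      have h3 : N.card ≤ (B₂ \ B₁).card + (B₁ \ B).card := by
        refine le_trans (Finset.card_le_card ?_) (Finset.card_union_le _ _)
        intro e he
        rw [hN, mem_sdiff] at he
        rw [mem_union, mem_sdiff, mem_sdiff]
        tauto
      omega
    set C' := R.filter (fun v => ¬ D < dg N R v) with hC'
    have hC'R : C' ⊆ R := Finset.filter_subset _ _
    have h1 := few_high N R D
    have h2 : (R.filter (fun v => D < dg N R v)).card + C'.card = R.card :=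
      Finset.card_filter_add_card_filter_not (s := R) (fun v => D < dg N R v)
    refine hcont M₂ B₂ (S ∪ T) C' R.card hd2 ?_ ?_ ?_ ?_ ?_ ?_ ?_
    · rw [Finset.disjoint_union_left]
      exact ⟨Finset.disjoint_of_subset_right (hC'R.trans hRC) hSC,
        (Finset.disjoint_of_subset_left hC'R hRT).symm⟩
    · rw [Finset.card_union_of_disjoint (Finset.disjoint_of_subset_right hTC hSC), hTc]
    · intro u hu v hv huv
      rw [mem_union] at hu hv
      rcases hu with hu | hu
      · rcases hv with hv | hv
        · exact hM2 (hM1 (hS u hu v hv huv))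
        · exact hM2 (hM1 (hSCM u hu v (hTC hv)))
      · rcases hv with hv | hv
        · rw [Sym2.eq_swap]
          exact hM2 (hM1 (hSCM v hv u (hTC hu)))
        · exact hM2 (hTM u hu v hv huv)
    · intro u hu v hv
      rw [mem_union] at hu
      rcases hu with hu | hu
      · exact hM2 (hM1 (hSCM u hu v (hRC (hC'R hv))))
      · rw [Sym2.eq_swap]
        exact hRM v (hC'R hv) u hu
    · intro v hv
      have hv' := hv
      rw [hC', mem_filter] at hv'
      have h3 : dg B₂ C' v ≤ dg B C' v + dg N C' v := by
        apply dg_union_le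
        intro e he
        rw [mem_union, hN, mem_sdiff]
        tauto
      have h4 : dg B C' v ≤ Δ :=
        (dg_mono (le_refl _) (hC'R.trans hRC) v).trans (hdeg v (hRC (hC'R hv)))
      have h5 : dg N C' v ≤ D :=
        (dg_mono (le_refl _) hC'R v).trans (not_lt.mp hv'.2)
      omega
    · omega
    · have h3 : R.card * (D + 1) = (R.filter (fun v => D < dg N R v)).card * (D + 1)
          + C'.card * (D + 1) := by
        rw [← add_mul, h2]
      have h4 : 2 * N.card ≤ 2 * (tk b a + b * R.card) := Nat.mul_le_mul_left _ hNc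
      omega
  · intro u hu t ht h
    rw [hU₀, mem_filter] at hu
    exact hu.2 ⟨t, ht, h⟩

end game

end Pool.Agent.Y418.GR
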