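import Mathlib
import Pool.Agent.Y418.GR.Stage

set_option autoImplicit false
set_option linter.unusedVariables false

/-!
# Iterating the stages
-/

namespace Pool.Agent.Y418.GR

open Finset

/-- `M` contains all edges of a complete graph on `q` vertices. -/
def HasClique {V : Type*} [DecidableEq V] (q : ℕ) (M : Finset (Sym2 V)) : Prop :=
  ∃ S : Finset V, S.card = q ∧ ∀ u ∈ S, ∀ v ∈ S, u ≠ v → s(u, v) ∈ M

lemma HasClique.mono {V : Type*} [DecidableEq V] {q q' : ℕ} (h : q' ≤ q) {M : Finset (Sym2 V)}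
    (hM : HasClique q M) : HasClique q' M := by
  obtain ⟨S, hS, h1⟩ := hM
  obtain ⟨T, hT, hTc⟩ := Finset.exists_subset_card_eq (show q' ≤ S.card by omega)
  exact ⟨T, hTc, fun u hu v hv => h1 u (hT hu) v (hT hv)⟩

/-- the size of the candidate sets in terms of the parameter `K` -/
def AA (a b K : ℕ) : ℕ := K * (wk b a + a + tk b a + 2 * tk b a * (1 + b) + 1)

/-- bound for the new degrees -/
def DD (b K : ℕ) : ℕ := 2 * (b + 1) * K

/-- the factor by which the candidate sets shrink -/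
noncomputable def gam (b K : ℕ) : ℝ := (1 + b) / (1 - 3 / K)

lemma gam_ge {b K : ℕ} (hK : 4 ≤ K) : 1 ≤ gam b K := by
  have hK' : (4 : ℝ) ≤ K := by exact_mod_cast hK
  unfold gam
  have h1 : (0 : ℝ) < 1 - 3 / K := by
    rw [sub_pos, div_lt_one (by linarith)]
    linarith
  rw [le_div_iff₀ h1]
  have h2 : (0 : ℝ) ≤ 3 / K := by positivity
  have h3 : (0 : ℝ) ≤ b := Nat.cast_nonneg b
  linarith

lemma shrink {a b K Δ r : ℕ} {n n' : ℕ} (hK : 4 ≤ K)
    (hn : ((AA a b K : ℕ) : ℝ) * (Δ + 1) ≤ n)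
    (h1 : n ≤ a + a * Δ + tk b a + (1 + b) * r)
    (h2 : r * (DD b K + 1) ≤ n' * (DD b K + 1) + 2 * (tk b a + b * r)) :
    (n : ℝ) / gam b K ≤ n' := by
  have hK' : (4 : ℝ) ≤ K := by exact_mod_cast hK
  have hK0 : (0 : ℝ) < K := by linarith
  set κ : ℝ := 1 / K with hκ
  have hκ0 : 0 < κ := by positivity
  have hκ1 : κ ≤ 1 / 4 := by
    rw [hκ]
    exact one_div_le_one_div_of_le (by norm_num) hK'
  have hKκ : (K : ℝ) * κ = 1 := by rw [hκ]; field_simp
  set t : ℝ := (tk b a : ℝ) with ht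
  have ht0 : 0 ≤ t := Nat.cast_nonneg _
  set w : ℝ := (wk b a : ℝ) with hw
  have hw0 : 0 ≤ w := Nat.cast_nonneg _
  have hb0 : (0 : ℝ) ≤ b := Nat.cast_nonneg _
  have ha0 : (0 : ℝ) ≤ a := Nat.cast_nonneg _
  have hΔ0 : (0 : ℝ) ≤ Δ := Nat.cast_nonneg _
  have hr0 : (0 : ℝ) ≤ r := Nat.cast_nonneg _
  have hn'0 : (0 : ℝ) ≤ n' := Nat.cast_nonneg _
  have hA : ((AA a b K : ℕ) : ℝ) = K * (w + a + t + 2 * t * (1 + b) + 1) := by
    unfold AA; push_cast; rw [hw, ht]
  rw [hA] at hn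
  have h1' : (n : ℝ) ≤ a + a * Δ + t + (1 + b) * r := by
    rw [ht]; exact_mod_cast h1
  set D1 : ℝ := 2 * (b + 1) * K + 1 with hD1
  have h2' : (r : ℝ) * D1 ≤ n' * D1 + 2 * (t + b * r) := by
    have : ((r * (DD b K + 1) : ℕ) : ℝ) ≤ ((n' * (DD b K + 1) + 2 * (tk b a + b * r) : ℕ) : ℝ) := by
      exact_mod_cast h2
    unfold DD at this
    push_cast at this
    rw [hD1, ht]
    linarith
  have hn2 : (w + a + t + 2 * t * (1 + b) + 1) * (Δ + 1) ≤ κ * n := by
    have := mul_le_mul_of_nonneg_left hn hκ0.le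
    calc (w + a + t + 2 * t * (1 + b) + 1) * (Δ + 1)
        = (K * κ) * ((w + a + t + 2 * t * (1 + b) + 1) * (Δ + 1)) := by rw [hKκ, one_mul]
      _ = κ * (K * (w + a + t + 2 * t * (1 + b) + 1) * (Δ + 1)) := by ring
      _ ≤ κ * n := this
  have hs1 : a + a * Δ + t ≤ κ * n := by
    refine le_trans ?_ hn2
    have : 0 ≤ 2 * t * (1 + b) := by positivity
    nlinarith [mul_nonneg hw0 hΔ0, mul_nonneg ht0 hΔ0, mul_nonneg this hΔ0]
  have hs2 : 2 * t * (1 + b) ≤ κ * n := by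
    refine le_trans ?_ hn2
    have h0 : 0 ≤ 2 * t * (1 + b) := by positivity
    nlinarith [mul_nonneg hw0 hΔ0, mul_nonneg ht0 hΔ0, mul_nonneg h0 hΔ0, mul_nonneg ha0 hΔ0]
  have hr1 : (1 - κ) * n ≤ (1 + b) * r := by linarith
  have hD1pos : 0 < D1 := by positivity
  have hD1one : 1 ≤ D1 := by
    rw [hD1]
    have : 0 ≤ 2 * ((b : ℝ) + 1) * K := by positivity
    linarith
  have hbD : 2 * (b : ℝ) ≤ κ * D1 := by
    rw [hD1]
    have h3 : κ * (2 * (b + 1) * K + 1) = 2 * (b + 1) * (K * κ) + κ := by ring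
    rw [h3, hKκ]
    linarith
  have hn3 : (r : ℝ) * (1 - κ) - 2 * t ≤ n' := by
    have h4 : ((r : ℝ) * (1 - κ) - 2 * t) * D1 ≤ n' * D1 := by
      have h5 : 2 * b * r ≤ κ * D1 * r := mul_le_mul_of_nonneg_right hbD hr0
      have h6 : 2 * t ≤ 2 * t * D1 := by nlinarith
      nlinarith
    exact le_of_mul_le_mul_right h4 hD1pos
  have hfin : (1 - 3 * κ) * n ≤ (1 + b) * n' := by
    have h7 : (1 + b) * ((r : ℝ) * (1 - κ) - 2 * t) ≤ (1 + b) * n' :=
      mul_le_mul_of_nonneg_left hn3 (by positivity)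
    have h8 : (1 - κ) * ((1 - κ) * n) ≤ (1 - κ) * ((1 + b) * r) :=
      mul_le_mul_of_nonneg_left hr1 (by linarith)
    have hn0 : (0 : ℝ) ≤ n := Nat.cast_nonneg _
    have h9 : 0 ≤ κ * κ * n := mul_nonneg (mul_nonneg hκ0.le hκ0.le) hn0
    have e7 : (1 + b) * ((r : ℝ) * (1 - κ) - 2 * t)
        = (1 - κ) * ((1 + b) * r) - 2 * t * (1 + b) := by ring
    have e8 : (1 - κ) * ((1 - κ) * (n : ℝ)) = (1 - 3 * κ) * n + κ * n + κ * κ * n := by ring
    rw [e7] at h7
    rw [e8] at h8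
    linarith
  have h13 : (0 : ℝ) < 1 - 3 / K := by
    rw [sub_pos, div_lt_one hK0]; linarith
  unfold gam
  rw [div_div_eq_mul_div, div_le_iff₀ (by positivity)]
  have e : (3 : ℝ) / K = 3 * κ := by rw [hκ]; ring
  rw [e]
  linarith

variable {V : Type*} [DecidableEq V] [Fintype V] {a b : ℕ}

theorem iterate (ha : 1 ≤ a) (K : ℕ) (hK : 4 ≤ K) (q : ℕ) : ∀ (x : ℕ) (M B : Finset (Sym2 V))
    (S C : Finset V) (Δ : ℕ), Disjoint M B → Disjoint S C →
    (∀ u ∈ S, ∀ v ∈ S, u ≠ v → s(u, v) ∈ M) → (∀ u ∈ S, ∀ v ∈ C, s(u, v) ∈ M) →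
    (∀ v ∈ C, dg B C v ≤ Δ) → q ≤ S.card + a * x →
    ((AA a b K : ℕ) : ℝ) * (Δ + x * DD b K + 1) * gam b K ^ x ≤ C.card →
    Forces a b (edges V) (HasClique q) M B := by
  intro x
  induction x with
  | zero =>
    intro M B S C Δ hd hSC hS hSCM hdeg hq hsize
    apply forces_of_goal ha
    · intro M M' hMM ⟨S, hS, h⟩
      exact ⟨S, hS, fun u hu v hv huv => hMM (h u hu v hv huv)⟩
    · exact HasClique.mono (by simpa using hq) ⟨S, rfl, hS⟩
  | succ x ih =>
    intro M B S C Δ hd hSC hS hSCM hdeg hq hsize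
    have hg1 := gam_ge (b := b) hK
    have hg0 : 0 < gam b K := by linarith
    have hpow : 1 ≤ gam b K ^ (x + 1) := one_le_pow₀ hg1
    have hA0 : (0 : ℝ) ≤ ((AA a b K : ℕ) : ℝ) := Nat.cast_nonneg _
    have hn : ((AA a b K : ℕ) : ℝ) * (Δ + 1) ≤ C.card := by
      refine le_trans ?_ hsize
      have h1 : ((AA a b K : ℕ) : ℝ) * (Δ + 1)
          ≤ ((AA a b K : ℕ) : ℝ) * (Δ + ((x + 1 : ℕ) : ℝ) * DD b K + 1) := by
        apply mul_le_mul_of_nonneg_left _ hA0
        have : (0 : ℝ) ≤ ((x + 1 : ℕ) : ℝ) * DD b K := by positivity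
        linarith
      have h2 : 0 ≤ ((AA a b K : ℕ) : ℝ) * (Δ + ((x + 1 : ℕ) : ℝ) * DD b K + 1) := by positivity
      nlinarith
    refine stage ha M B S C Δ (DD b K) hd hSC hS hSCM hdeg ?_ ?_
    · have h1 : ((wk b a * (Δ + 1) : ℕ) : ℝ) ≤ C.card := by
        refine le_trans ?_ hn
        push_cast
        apply mul_le_mul_of_nonneg_right _ (by positivity)
        have : wk b a ≤ AA a b K := by
          unfold AA
          calc wk b a ≤ 1 * (wk b a + a + tk b a + 2 * tk b a * (1 + b) + 1) := by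
                rw [one_mul]; omega
            _ ≤ K * (wk b a + a + tk b a + 2 * tk b a * (1 + b) + 1) :=
                Nat.mul_le_mul_right _ (by omega)
        exact_mod_cast this
      exact_mod_cast h1
    · intro M' B' S' C' r hd' hSC' hSc hS' hSCM' hdeg' h1 h2
      have h3 := shrink hK hn h1 h2
      refine ih M' B' S' C' (Δ + DD b K) hd' hSC' hS' hSCM' hdeg' ?_ ?_
      · rw [hSc]
        have : a * (x + 1) = a * x + a := by ring
        omega
      · refine le_trans ?_ h3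
        rw [le_div_iff₀ hg0]
        refine le_trans (le_of_eq ?_) hsize
        push_cast
        ring

/-- Maker builds a complete graph with `q ≤ a x` vertices. -/
theorem forces_of_size (ha : 1 ≤ a) (K : ℕ) (hK : 4 ≤ K) (q x : ℕ) (hq : q ≤ a * x)
    (hsize : ((AA a b K : ℕ) : ℝ) * (x * DD b K + 1) * gam b K ^ x ≤ (Fintype.card V : ℝ)) :
    Forces a b (edges V) (HasClique q) ∅ ∅ := by
  refine iterate ha K hK q x ∅ ∅ ∅ univ 0 (by simp) (by simp) (by simp) (by simp) ?_ (by simpa) ?_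
  · intro v _
    unfold dg
    simp
  · rw [Finset.card_univ]
    simpa using hsize

lemma exists_K {b : ℕ} (hb : 1 ≤ b) {ε : ℝ} (hε : 0 < ε) : ∃ K : ℕ, 4 ≤ K ∧
    Real.log (gam b K) ≤ (1 + ε) * Real.log (1 + b) := by
  have hb1 : (1 : ℝ) ≤ b := by exact_mod_cast hb
  have hl : 0 < Real.log (1 + b) := Real.log_pos (by linarith)
  obtain ⟨K, hK⟩ := exists_nat_gt (4 + 12 / (ε * Real.log (1 + b)))
  have hpos : 0 < 12 / (ε * Real.log (1 + b)) := by positivity
  have hK4 : (4 : ℝ) < K := by linarith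
  refine ⟨K, by exact_mod_cast hK4.le, ?_⟩
  have h13 : (0 : ℝ) < 1 - 3 / K := by
    rw [sub_pos, div_lt_one (by linarith)]; linarith
  unfold gam
  rw [Real.log_div (by linarith) h13.ne']
  have h1 : 1 - 1 / (1 - 3 / K) ≤ Real.log (1 - 3 / (K : ℝ)) := by
    have := Real.one_sub_inv_le_log_of_pos h13
    rwa [← one_div] at this
  have h2 : 1 / (1 - 3 / (K : ℝ)) - 1 ≤ 12 / K := by
    have h3 : (1 : ℝ) / 4 ≤ 1 - 3 / K := by
      have : (3 : ℝ) / K ≤ 3 / 4 := div_le_div_of_nonneg_left (by norm_num) (by norm_num) hK4.le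
      linarith
    have h4 : 1 / (1 - 3 / (K : ℝ)) - 1 = (3 / K) * (1 / (1 - 3 / K)) := by
      have hy := h13.ne'
      rw [eq_comm, mul_one_div, div_eq_iff hy, sub_mul, one_div_mul_cancel hy]
      ring
    rw [h4]
    have h5 : 1 / (1 - 3 / (K : ℝ)) ≤ 4 := by
      rw [div_le_iff₀ h13]; linarith
    have h6 : (0 : ℝ) ≤ 3 / K := by positivity
    calc (3 / (K : ℝ)) * (1 / (1 - 3 / K)) ≤ (3 / K) * 4 := mul_le_mul_of_nonneg_left h5 h6
      _ = 12 / K := by ring
  have h7 : 12 / (K : ℝ) ≤ ε * Real.log (1 + b) := by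
    have hK0 : (0 : ℝ) < K := by linarith
    rw [div_le_iff₀ hK0]
    have h8 : 12 / (ε * Real.log (1 + b)) ≤ K := by linarith
    rw [div_le_iff₀ (by positivity)] at h8
    linarith
  linarith

lemma eventually_exp {c₁ c₂ c₃ : ℝ} (h1 : 0 ≤ c₁) (h2 : 0 ≤ c₂) (h3 : 0 < c₃) :
    ∀ᶠ L : ℝ in Filter.atTop, c₁ * L + c₂ ≤ Real.exp (c₃ * L) := by
  filter_upwards [Filter.eventually_ge_atTop 1,
    Filter.eventually_ge_atTop (2 * (c₁ + c₂) / c₃ ^ 2)] with L hL1 hL2
  have h4 : 0 ≤ c₃ * L := by positivity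
  have h5 := Real.quadratic_le_exp_of_nonneg h4
  rw [div_le_iff₀ (by positivity)] at hL2
  have h6 : c₂ ≤ c₂ * L := by nlinarith
  have h7 : 2 * (c₁ + c₂) * L ≤ L * c₃ ^ 2 * L := mul_le_mul_of_nonneg_right hL2 (by linarith)
  nlinarith

/-- **The greedy strategy with stars**: for large `N` Maker builds `K_q` for all
`q ≤ (1 - ε) a log_{1+b} N`. -/
theorem forces_greedy (a b : ℕ) (ha : 1 ≤ a) (hb : 1 ≤ b) {ε : ℝ} (hε : 0 < ε) (hε1 : ε < 1) :
    ∃ N₀ : ℕ, ∀ N : ℕ, N₀ ≤ N → ∀ q : ℕ,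
      (q : ℝ) ≤ (1 - ε) * a * Real.logb (1 + b) N →
      Forces a b (edges (Fin N)) (HasClique q) ∅ ∅ := by
  have ha1 : (1 : ℝ) ≤ a := by exact_mod_cast ha
  have hb1 : (1 : ℝ) ≤ b := by exact_mod_cast hb
  have hl : 0 < Real.log (1 + b) := Real.log_pos (by linarith)
  obtain ⟨K, hK, hKg⟩ := exists_K hb (show 0 < ε / 2 by linarith)
  have hg1 := gam_ge (b := b) hK
  have hg0 : 0 < gam b K := by linarith
  have hlg0 : 0 ≤ Real.log (gam b K) := Real.log_nonneg hg1
  set A : ℝ := ((AA a b K : ℕ) : ℝ) with hA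
  set D : ℝ := ((DD b K : ℕ) : ℝ) with hD
  have hA0 : 0 ≤ A := Nat.cast_nonneg _
  have hD0 : 0 ≤ D := Nat.cast_nonneg _
  have hev := eventually_exp (c₁ := A * gam b K * D / Real.log (1 + b))
    (c₂ := A * gam b K * (D + 1)) (c₃ := ε / 2) (by positivity) (by positivity) (by linarith)
  have hlog : Filter.Tendsto (fun N : ℕ => Real.log (N:ℝ)) Filter.atTop Filter.atTop :=
    Real.tendsto_log_atTop.comp tendsto_natCast_atTop_atTop
  obtain ⟨N₀, hN₀⟩ := Filter.eventually_atTop.1 (hlog.eventually hev)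
  refine ⟨max N₀ 1, fun N hN q hq => ?_⟩
  have hN1 : 1 ≤ N := le_trans (le_max_right _ _) hN
  have hNR : (1 : ℝ) ≤ N := by exact_mod_cast hN1
  have hNpos : (0 : ℝ) < N := by linarith
  have hmain := hN₀ N (le_trans (le_max_left _ _) hN)
  set L := Real.log (N : ℝ) with hL
  have hL0 : 0 ≤ L := Real.log_nonneg hNR
  set x := ⌈(q : ℝ) / a⌉₊ with hx
  have hqx : q ≤ a * x := by
    have h1 : (q : ℝ) / a ≤ x := Nat.le_ceil _
    rw [div_le_iff₀ (by linarith)] at h1
    have h2 : (q : ℝ) ≤ ((a * x : ℕ) : ℝ) := by push_cast; linarith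
    exact_mod_cast h2
  have hxle : (x : ℝ) ≤ (1 - ε) * (L / Real.log (1 + b)) + 1 := by
    have h1 : (x : ℝ) < (q : ℝ) / a + 1 := Nat.ceil_lt_add_one (by positivity)
    have h2 : (q : ℝ) / a ≤ (1 - ε) * (L / Real.log (1 + b)) := by
      rw [div_le_iff₀ (by linarith)]
      unfold Real.logb at hq
      linarith
    linarith
  refine forces_of_size ha K hK q x hqx ?_
  rw [Fintype.card_fin]
  have hx0 : (0 : ℝ) ≤ x := Nat.cast_nonneg _
  have hxle2 : (x : ℝ) ≤ L / Real.log (1 + b) + 1 := by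
    have : 0 ≤ L / Real.log (1 + b) := by positivity
    nlinarith
  have hpow : gam b K ^ x ≤ gam b K * Real.exp ((1 - ε / 2) * L) := by
    have h1 : gam b K ^ x = Real.exp (x * Real.log (gam b K)) := by
      rw [← Real.log_pow, Real.exp_log (by positivity)]
    have h2 : gam b K = Real.exp (Real.log (gam b K)) := (Real.exp_log hg0).symm
    rw [h1]
    conv_rhs => rw [h2]
    rw [← Real.exp_add]
    apply Real.exp_le_exp.mpr
    calc (x : ℝ) * Real.log (gam b K)
        ≤ ((1 - ε) * (L / Real.log (1 + b)) + 1) * Real.log (gam b K) :=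
          mul_le_mul_of_nonneg_right hxle hlg0
      _ = Real.log (gam b K) + (1 - ε) * (L / Real.log (1 + b)) * Real.log (gam b K) := by ring
      _ ≤ Real.log (gam b K) + (1 - ε) * (L / Real.log (1 + b)) *
            ((1 + ε / 2) * Real.log (1 + b)) := by
          have h3 : 0 ≤ (1 - ε) * (L / Real.log (1 + b)) :=
            mul_nonneg (by linarith) (by positivity)
          have := mul_le_mul_of_nonneg_left hKg h3
          linarith
      _ = Real.log (gam b K) + (1 - ε) * (1 + ε / 2) * L := by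
          field_simp
      _ ≤ Real.log (gam b K) + (1 - ε / 2) * L := by
          have h4 : (1 - ε) * (1 + ε / 2) ≤ 1 - ε / 2 := by nlinarith
          have := mul_le_mul_of_nonneg_right h4 hL0
          linarith
  calc A * (x * D + 1) * gam b K ^ x
      ≤ A * (x * D + 1) * (gam b K * Real.exp ((1 - ε / 2) * L)) :=
        mul_le_mul_of_nonneg_left hpow (by positivity)
    _ = (A * gam b K * (x * D + 1)) * Real.exp ((1 - ε / 2) * L) := by ring
    _ ≤ (A * gam b K * D / Real.log (1 + b) * L + A * gam b K * (D + 1)) *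
          Real.exp ((1 - ε / 2) * L) := by
        apply mul_le_mul_of_nonneg_right _ (Real.exp_pos _).le
        have h5 : A * gam b K * (x * D + 1)
            ≤ A * gam b K * ((L / Real.log (1 + b) + 1) * D + 1) := by
          apply mul_le_mul_of_nonneg_left _ (by positivity)
          have := mul_le_mul_of_nonneg_right hxle2 hD0
          linarith
        refine h5.trans (le_of_eq ?_)
        ring
    _ ≤ Real.exp (ε / 2 * L) * Real.exp ((1 - ε / 2) * L) :=
        mul_le_mul_of_nonneg_right hmain (Real.exp_pos _).le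
    _ = N := by
        rw [← Real.exp_add]
        have : ε / 2 * L + (1 - ε / 2) * L = L := by ring
        rw [this, hL, Real.exp_log hNpos]

end Pool.Agent.Y418.GR
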